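import Pool.Agent.Run7.h388.BB.Final
import Pool.Agent.Run7.h460.BB.Final

set_option autoImplicit false

/-!
# Bloch-Beilinson filtrations with the Abel-Jacobi kernel in the second step: rational varieties.
# Definitions
-/

open CategoryTheory AlgebraicGeometry

universe v

namespace Run7.h388.BJ

open Pool.Agent.H914 Pool.Agent.H914.VarClass Pool.Agent.H914.VarClass.Obj
open Pool.Agent.W492.BB hiding IsBB
open Run7.h388.BB (Contains Detected)
open Run7.h460.BB (AJData IsAJ HomTriv run)

variable {𝒱 : VarClass ℂ} {C : TheoryData.{0, v, 0} 𝒱 ℚ} {H : WeilTheoryData.{0, v, 0} C ℚ}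

variable (C) in
/-- The conditions on the family `S` of varieties, for the number `e`:
1. the Chow groups of every variety `X` are contained, with codimensions shifted by `e`, in those of
  a variety of the family (`Contains`);
2. the family is stable under the product with some curve `L`;
3. the classes in `CH^m(P)`, `P ∈ S`, `m ≥ e`, are detected by the correspondences of degree `-e`
  (`Detected`).

The family of all smooth projective rational varieties satisfies the conditions for `e = 1`: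
1. the blow-up of a projective space along `X`, 2. the projective line, 3. the decomposition of the
diagonal of Bloch and Srinivas. -/
structure IsFamily (e : ℕ) (S : Set 𝒱.Obj) : Prop where
  contains : ∀ X, ∃ P ∈ S, Contains C e P X
  curve : ∃ L : 𝒱.Obj, L.dim = 1 ∧ ∀ P ∈ S, P.prod L ∈ S
  detected : ∀ P ∈ S, Detected C e P

/-- Filtrations of the Chow groups of the variety `P` alone: conditions 1, 2, 3 of a
Bloch-Beilinson filtration for `P` and its self-correspondences, where 2 is strengthened to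
`F^(m+1) CH^(m+e)(P) = 0`, and condition 4 for the self-correspondences of degree zero. (The values
of `F` on the varieties other than `P` do not matter.) -/
structure IsLocalBB (J : AJData H) (e : ℕ) (P : 𝒱.Obj) (F : Filtration C) : Prop where
  zero : ∀ (m : ℕ) (x : C.A P), F.Mem m 0 x ↔ C.Deg m x
  one : ∀ (m : ℕ) (x : C.A P), F.Mem m 1 x ↔ HomTriv H m x
  two : ∀ (m : ℕ) (x : C.A P), F.Mem m 2 x ↔ J.Ker m x
  top : ∀ (m : ℕ) (x : C.A P), F.Mem m (m + 1) x → x = 0
  top_sub : ∀ (m : ℕ) (x : C.A P), F.Mem (m + e) (m + 1) x → x = 0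
  corr : ∀ (j i ν : ℕ) (Γ : C.A (P.prod P)), C.Deg (P.dim + i - j) Γ →
    ∀ x, F.Mem j ν x → F.Mem i ν (C.act Γ x)
  graded : ∀ (m ν : ℕ) (Γ : C.A (P.prod P)), C.Deg P.dim Γ → Kills H Γ (2 * m - ν) →
    ∀ x, F.Mem m ν x → F.Mem m (ν + 1) (C.act Γ x)

/-- A filtration `F 0 ⊇ F 1 ⊇ …` of the single group `CH^m(P)`: the first three steps are `CH^m(P)`,
the homologically trivial classes and the kernel of the Abel-Jacobi map, a self-correspondence of
degree zero which acts as zero on `H^(2m-ν)(P)` maps `F ν` to `F (ν + 1)`, and the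
self-correspondences which lower the codimension to `n + e ≤ m` kill `F (n + 1)`. -/
structure IsMidFiltration (J : AJData H) (e : ℕ) (P : 𝒱.Obj) (m : ℕ)
    (F : ℕ → Submodule ℚ (C.A P)) : Prop where
  zero : ∀ x, x ∈ F 0 ↔ C.Deg m x
  one : ∀ x, x ∈ F 1 ↔ HomTriv H m x
  two : ∀ x, x ∈ F 2 ↔ J.Ker m x
  anti : ∀ ν, F (ν + 1) ≤ F ν
  graded : ∀ (ν : ℕ) (Γ : C.A (P.prod P)), C.Deg P.dim Γ → Kills H Γ (2 * m - ν) →
    ∀ x ∈ F ν, C.act Γ x ∈ F (ν + 1)
  kill : ∀ n : ℕ, n + e ≤ m → ∀ Δ : C.A (P.prod P), C.Deg (P.dim + (n + e) - m) Δ →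
    ∀ x ∈ F (n + 1), C.act Δ x = 0

/-- The vanishing condition for the group `CH^m(P)`. Let `2 ≤ n` and `n + e ≤ m`, let `z` be a class
of codimension `m` in the kernel of the Abel-Jacobi map, let `Γ 2, …, Γ n` be self-correspondences of
`P` of degree zero such that `Γ ν` acts as zero on `H^(2m-ν)(P)`, and let `Δ` be a
self-correspondence which lowers the codimension from `m` to `n + e`. Then
`Δ_* (Γ n)_* … (Γ 2)_* z = 0` in `CH^(n+e)(P)`. -/
def Vanishing (J : AJData H) (e : ℕ) (P : 𝒱.Obj) (m : ℕ) : Prop :=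
  ∀ n : ℕ, 2 ≤ n → n + e ≤ m → ∀ (z : C.A P) (Γ : ℕ → C.A (P.prod P)) (Δ : C.A (P.prod P)),
    J.Ker m z → (∀ ν, 2 ≤ ν → ν ≤ n → C.Deg P.dim (Γ ν) ∧ Kills H (Γ ν) (2 * m - ν)) →
    C.Deg (P.dim + (n + e) - m) Δ → C.act Δ (run Γ z (n - 1)) = 0

end Run7.h388.BJ
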