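import Pool.Agent.Run7.h388.BJ.Defs

set_option autoImplicit false
set_option linter.unusedSectionVars false
set_option linter.unusedVariables false

/-!
# Bloch-Beilinson filtrations with the Abel-Jacobi kernel in the second step: rational varieties
-/

open CategoryTheory AlgebraicGeometry

universe v

namespace Run7.h388.BJ

open Pool.Agent.H914 Pool.Agent.H914.VarClass Pool.Agent.H914.VarClass.Obj
open Pool.Agent.W492.BB hiding IsBB
open Run7.h388.BB (Contains Detected contains_trans contains_cast contains_fst contains_snd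
  contains_twist exists_dim family_mid)
open Run7.h460.BB (AJData IsAJ HomTriv run IsBB Ch Ev ev_run deg_cast act_deg ker_act fil fil_bb
  stp stp_two)

variable {𝒱 : VarClass ℂ} {C : TheoryData.{0, v, 0} 𝒱 ℚ} {H : WeilTheoryData.{0, v, 0} C ℚ}
  [hC : IsChow C] [hH : IsWeil H] {J : AJData H} [hJ : IsAJ J]

include hC hH hJ in
/-- The transport of a chain to all varieties which contain a certain product. -/
lemma transport (hT : ∃ T : 𝒱.Obj, T.dim = 1) {m ν : ℕ} {X : 𝒱.Obj} {i : ℕ} {x : C.A X}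
    (h : Ch J m ν X i x) : ∃ Q : 𝒱.Obj, ∀ (P : 𝒱.Obj) (e : ℕ), Contains C e P Q →
      ∃ (lam : C.A (X.prod P)) (rho : C.A (P.prod X)), C.Deg (X.dim + (m + e) - i) lam ∧
        C.Deg (P.dim + i - (m + e)) rho ∧ (∀ y, C.act rho (C.act lam y) = y) ∧
        Ev J (m + e) P ν (C.act lam x) := by
  have key : ∀ (X : 𝒱.Obj) (i : ℕ), i < m → ∃ Q : 𝒱.Obj, ∀ (P : 𝒱.Obj) (e : ℕ),
      Contains C e P Q → ∃ (lam : C.A (X.prod P)) (rho : C.A (P.prod X)),
        C.Deg (X.dim + (m + e) - i) lam ∧ C.Deg (P.dim + i - (m + e)) rho ∧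
        (∀ y, C.act rho (C.act lam y) = y) := by
    intro X i him
    obtain ⟨T, hTd⟩ := exists_dim hT (m - i - 1)
    refine ⟨X.prod T, fun P e hP => ?_⟩
    obtain ⟨lam, rho, h1, h2, h3⟩ := contains_trans H (contains_twist H (X := X) hTd) hP
    refine ⟨lam, rho, deg_cast ?_ h1, deg_cast ?_ h2, h3⟩
    · have : ((m - i - 1 + 1 + e : ℕ) : ℤ) = m + e - i := by omega
      rw [this]; ring
    · have : ((m - i - 1 + 1 + e : ℕ) : ℤ) = m + e - i := by omega
      rw [this]; ring
  induction h with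
  | nil X i x hi hx =>
    obtain ⟨Q, hQ⟩ := key X i hi
    refine ⟨Q, fun P e hP => ?_⟩
    obtain ⟨lam, rho, h1, h2, h3⟩ := hQ P e hP
    refine ⟨lam, rho, h1, h2, h3, .nil _ ?_⟩
    exact ker_act (i := m + e) (deg_cast (by push_cast; ring) h1) hx
  | cons r Z X j i z Γ hz hi hΓ hk ih =>
    obtain ⟨Q, hQ⟩ := ih
    obtain ⟨Q', hQ'⟩ := key X i hi
    refine ⟨Q.prod Q', fun P e hP => ?_⟩
    obtain ⟨lam', rho', g1, g2, g3, g4⟩ := hQ P e
      (contains_cast (by ring) (contains_trans H (contains_fst H Q Q') hP))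
    obtain ⟨lam, rho, h1, h2, h3⟩ := hQ' P e
      (contains_cast (by ring) (contains_trans H (contains_snd H Q Q') hP))
    refine ⟨lam, rho, h1, h2, h3, ?_⟩
    have g2' : rho' ∈ C.gr (P.prod Z) (P.dim + ((j : ℤ) - (m + e))) := deg_cast (by ring) g2
    have r2 : Realised H Z X ((i : ℤ) - j) (C.act Γ) (H.act (H.cl Γ)) :=
      Realised.of (deg_cast (by ring) hΓ)
    have r3 : Realised H X P ((m : ℤ) + e - i) (C.act lam) (H.act (H.cl lam)) :=
      Realised.of (deg_cast (by ring) h1)
    obtain ⟨Θ, t1, t2, t3⟩ := ((Realised.of (H := H) g2').comp r2).comp r3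
    have h4 : C.act Θ (C.act lam' z) = C.act lam (C.act Γ z) := by
      have h5 : C.act Θ (C.act lam' z) = C.act lam (C.act Γ (C.act rho' (C.act lam' z))) := t2 _
      rw [h5, g3]
    rw [← h4]
    refine .cons r _ Θ g4 (deg_cast (by ring) t1) fun a ha => ?_
    have h5 : H.act (H.cl Θ) a = H.act (H.cl lam) (H.act (H.cl Γ) (H.act (H.cl rho') a)) := t3 a
    have h6 : H.Deg (2 * j - r) (H.act (H.cl rho') a) := by
      have h7 := actH_mem H (e := (j : ℤ) - (m + e)) g2' ha
      have e7 : (2 * ((m + e : ℕ) : ℤ) - r) + 2 * ((j : ℤ) - (m + e)) = 2 * j - r := by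
        push_cast; ring
      rw [e7] at h7
      exact h7
    rw [h5, hk _ h6, TheoryData.act_map_zero]

include hC hH

lemma local_of_bb {F : Filtration C} (hF : IsBB J F) {e : ℕ} {P : 𝒱.Obj} (hP : Detected C e P) :
    IsLocalBB J e P F where
  zero := hF.zero P
  one := hF.one P
  two := hF.two P
  top := hF.top P
  top_sub := fun m x hx => by
    refine hP (m + e) (by omega) x (by exact_mod_cast F.le_gr _ _ _ hx) fun T α hα => ?_
    have hα' : C.Deg (P.dim + m - (m + e : ℕ)) α := deg_cast (by push_cast; ring) hα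
    exact hF.top T m _ (hF.corr P T (m + e) m (m + 1) α hα' _ hx)
  corr := hF.corr P P
  graded := fun m ν Γ hΓ => hF.graded P P m m ν Γ (deg_cast (by ring) hΓ)

lemma mid_of_local {F : Filtration C} {e : ℕ} {P : 𝒱.Obj} (hF : IsLocalBB J e P F) (m : ℕ) :
    IsMidFiltration J e P m (F.F P m) where
  zero := hF.zero m
  one := hF.one m
  two := hF.two m
  anti := F.anti P m
  graded := hF.graded m
  kill := fun n hn Δ hΔ x hx =>
    hF.top_sub n _ (hF.corr m (n + e) (n + 1) Δ (deg_cast (by push_cast; ring) hΔ) _ hx)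

lemma vanishing_of_mid {e m : ℕ} {P : 𝒱.Obj} {F : ℕ → Submodule ℚ (C.A P)}
    (hF : IsMidFiltration J e P m F) : Vanishing J e P m := by
  intro n hn hnm z Γ Δ hz hΓ hΔ
  have key : ∀ s, s + 1 ≤ n → run Γ z s ∈ F (s + 2) := by
    intro s
    induction s with
    | zero => intro _; exact (hF.two z).2 hz
    | succ s ih =>
      intro hs
      obtain ⟨h3, h4⟩ := hΓ (s + 2) (by omega) (by omega)
      exact hF.graded (s + 2) (Γ (s + 2)) h3 h4 _ (ih (by omega))
  have h5 := key (n - 1) (by omega)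
  have e5 : n - 1 + 2 = n + 1 := by omega
  rw [e5] at h5
  exact hF.kill n hnm Δ hΔ _ h5

include hJ

lemma global_of_vanishing {e : ℕ} {S : Set 𝒱.Obj} (hS : IsFamily C e S)
    (hv : ∀ P ∈ S, ∀ m, P.dim = 2 * m → Vanishing J e P m) : IsBB J (fil J) := by
  have hT : ∃ T : 𝒱.Obj, T.dim = 1 := by
    obtain ⟨L, hL, -⟩ := hS.curve
    exact ⟨L, hL⟩
  refine fil_bb fun X j x hx => ?_
  match j, hx with
  | 0, hx => exact Run7.h460.BB.hom_zero (J := J) hx
  | 1, hx => exact hJ.divisor x ((stp_two X 1 x).1 hx)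
  | j + 2, hx =>
    have h1 : stp J X (j + 2) (j + 2 + 1) ≤ ⊥ := by
      refine Submodule.span_le.2 ?_
      rintro x ⟨M, hm⟩
      show x = 0
      have hjm : j + 2 < M := hm.lt
      obtain ⟨Q, hQ⟩ := transport (J := J) hT hm
      obtain ⟨P₀, hPS₀, hP₀⟩ := hS.contains (Q.prod X)
      obtain ⟨P, hPS, t, hdim, hP1, hP2⟩ := family_mid H hS.curve hPS₀
        (contains_cast (by ring) (contains_trans H (contains_fst H Q X) hP₀))
        (contains_cast (by ring) (contains_trans H (contains_snd H Q X) hP₀)) M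
      obtain ⟨lam, rho, g1, g2, g3, g4⟩ := hQ P (e + t) hP1
      obtain ⟨th, th', t1, -, t2⟩ := hP2
      have r1 : Realised H P X (((j + 2 : ℕ) : ℤ) - (M + (e + t : ℕ))) (C.act rho)
          (H.act (H.cl rho)) := Realised.of (deg_cast (by push_cast; ring) g2)
      obtain ⟨Θ, s1, s2, s3⟩ := r1.comp (Realised.of (H := H) t1)
      obtain ⟨-, z', Γ', u1, u2, u3⟩ := ev_run g4
      have h4 : C.act Θ (C.act lam x) = C.act th x := by
        have h5 : C.act Θ (C.act lam x) = C.act th (C.act rho (C.act lam x)) := s2 _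
        rw [h5, g3]
      have h6 : C.act th x = 0 := by
        rw [← h4, ← u3]
        refine hv P hPS (M + (e + t)) hdim (j + 2) (by omega) (by omega) z' Γ' Θ u1
          (fun ν h5 h6 => u2 ν h5 (by omega)) (deg_cast (by push_cast; ring) s1)
      rw [← t2 x, h6, TheoryData.act_map_zero]
    exact (Submodule.mem_bot ℚ).1 (h1 hx)

/-- The equivalence of the existence of a Bloch-Beilinson filtration for all varieties, of the
existence for one variety of `S` at a time, of the existence of a filtration of the single groups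
`CH^m(P)`, where `P` is a variety of `S` of dimension `2m`, and of the vanishing condition for these
groups. -/
theorem main (e : ℕ) (S : Set 𝒱.Obj) (hS : IsFamily C e S) :
    List.TFAE [∃ F : Filtration C, IsBB J F,
      ∀ P ∈ S, ∃ F : Filtration C, IsLocalBB J e P F,
      ∀ P ∈ S, ∀ m, P.dim = 2 * m → ∃ F : ℕ → Submodule ℚ (C.A P), IsMidFiltration J e P m F,
      ∀ P ∈ S, ∀ m, P.dim = 2 * m → Vanishing J e P m] := by
  tfae_have 1 → 2 := by
    rintro ⟨F, hF⟩ P hP
    exact ⟨F, local_of_bb hF (hS.detected P hP)⟩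
  tfae_have 2 → 3 := fun h P hP m _ => by
    obtain ⟨F, hF⟩ := h P hP
    exact ⟨_, mid_of_local hF m⟩
  tfae_have 3 → 4 := fun h P hP m hm => by
    obtain ⟨F, hF⟩ := h P hP m hm
    exact vanishing_of_mid hF
  tfae_have 4 → 1 := fun h => ⟨fil J, global_of_vanishing hS h⟩
  tfae_finish

end Run7.h388.BJ
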